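import Pool.Agent.H61.KW.TA

namespace Pool.Agent.H21.KW

open Set Pool.Agent.H61.KV Pool.Agent.H61.KW

section aux

variable {V : Type} [NormedAddCommGroup V] [NormedSpace ℝ V] [FiniteDimensional ℝ V] {C : Set V}
  {a b u v u' v' r x : V}

/-- the components of a direct sum are unique -/
theorem ds_uniq (h : Dsum C a b) (hu : u ∈ Sp C a) (hu' : u' ∈ Sp C a) (hv : v ∈ Sp C b)
    (hv' : v' ∈ Sp C b) (e : u + v = u' + v') : u = u' ∧ v = v' := by
  have e1 : u - u' = v' - v := by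
    rw [sub_eq_sub_iff_add_eq_add, e, add_comm]
  have h1 : u - u' ∈ Sp C a := Submodule.sub_mem _ hu hu'
  have h2 : u - u' ∈ Sp C b := by
    rw [e1]
    exact Submodule.sub_mem _ hv' hv
  have h3 : u - u' = 0 := h.2.2.1 _ h1 h2
  refine ⟨sub_eq_zero.1 h3, ?_⟩
  rw [h3] at e1
  exact (sub_eq_zero.1 e1.symm).symm

/-- a point of the face of `u + v` is the sum of points of the faces of `u` and `v` -/
theorem ds_dec (hC : IsCC C) (h : Dsum C a b) (hu : u ∈ Fc C a) (hv : v ∈ Fc C b)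
    (hr : r ∈ Fc C (u + v)) : ∃ u1 ∈ Fc C u, ∃ v1 ∈ Fc C v, r = u1 + v1 := by
  have haC := h.1
  have hbC := h.2.1
  have habC := hC.add a haC b hbC
  have huab : u ∈ Fc C (a + b) := tra hC habC (left_fc hC haC hbC) hu
  have hvab : v ∈ Fc C (a + b) := tra hC habC (right_fc hC haC hbC) hv
  have huv : u + v ∈ Fc C (a + b) := add_fc hC habC huab hvab
  have hrab : r ∈ Fc C (a + b) := tra hC habC huv hr
  obtain ⟨hrC, N, hN, hN'⟩ := hr
  have hrest : N • (u + v) - r ∈ Fc C (a + b) := by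
    have e : r + (N • (u + v) - r) = N • (u + v) := by abel
    refine (face hC habC hrC hN' ?_).2
    rw [e]
    exact smul_fc hC habC hN huv
  obtain ⟨u1, hu1, v1, hv1, e1⟩ := h.2.2.2 r hrab
  obtain ⟨u2, hu2, v2, hv2, e2⟩ := h.2.2.2 _ hrest
  have e3 : N • u + N • v = (u1 + u2) + (v1 + v2) := by
    have : N • u + N • v = r + (N • (u + v) - r) := by rw [smul_add]; abel
    rw [this, e2, e1]
    abel
  obtain ⟨e4, e5⟩ := ds_uniq h (Submodule.smul_mem _ N (mem_sp hu))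
    (Submodule.add_mem _ (mem_sp hu1) (mem_sp hu2)) (Submodule.smul_mem _ N (mem_sp hv))
    (Submodule.add_mem _ (mem_sp hv1) (mem_sp hv2)) e3
  refine ⟨u1, ⟨mem_C hu1, N, hN, ?_⟩, v1, ⟨mem_C hv1, N, hN, ?_⟩, e1⟩
  · rw [e4, add_sub_cancel_left]
    exact mem_C hu2
  · rw [e5, add_sub_cancel_left]
    exact mem_C hv2

theorem ds_symm (h : Dsum C a b) : Dsum C b a := by
  refine ⟨h.2.1, h.1, fun v h1 h2 => h.2.2.1 v h2 h1, fun r hr => ?_⟩
  rw [add_comm] at hr
  obtain ⟨u, hu, v, hv, e⟩ := h.2.2.2 r hr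
  exact ⟨v, hv, u, hu, by rw [e, add_comm]⟩

theorem ds_left (hC : IsCC C) (h : Dsum C a b) (hu : u ∈ Fc C a) (hv : v ∈ Fc C b)
    (hr : r ∈ Fc C a) (hr' : r ∈ Fc C (u + v)) : r ∈ Fc C u := by
  obtain ⟨u1, hu1, v1, hv1, e1⟩ := ds_dec hC h hu hv hr'
  have hu1a : u1 ∈ Fc C a := tra hC h.1 hu hu1
  have hv1b : v1 ∈ Fc C b := tra hC h.2.1 hv hv1
  have e2 : r + 0 = u1 + v1 := by rw [add_zero, e1]
  obtain ⟨e3, -⟩ := ds_uniq h (mem_sp hr) (mem_sp hu1a) (Submodule.zero_mem _) (mem_sp hv1b) e2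
  rw [e3]
  exact hu1

end aux

theorem pf_DSB : T_DSB := by
  intro V _ _ _ C a b hC h
  have haC := h.1
  have hbC := h.2.1
  have habC := hC.add a haC b hbC
  refine ⟨?_, ds_symm h, ?_, ?_, ?_, ?_⟩
  · have h1 : Sp C (a + b) = Sp C a ⊔ Sp C b := by
      apply le_antisymm
      · refine Submodule.span_le.2 ?_
        intro r hr
        obtain ⟨u, hu, v, hv, rfl⟩ := h.2.2.2 r hr
        exact Submodule.add_mem_sup (mem_sp hu) (mem_sp hv)
      · exact sup_le (sp_mono hC habC (left_fc hC haC hbC)) (sp_mono hC habC (right_fc hC haC hbC))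
    have h2 : Sp C a ⊓ Sp C b = ⊥ := by
      rw [eq_bot_iff]
      intro v hv
      exact (Submodule.mem_bot ℝ).2 (h.2.2.1 v hv.1 hv.2)
    have h3 := Submodule.finrank_sup_add_finrank_inf_eq (Sp C a) (Sp C b)
    rw [h2, finrank_bot, add_zero] at h3
    unfold rk
    rw [h1, h3]
  · intro u hu v hv
    refine ⟨mem_C hu, mem_C hv, ?_, fun r hr => ds_dec hC h hu hv hr⟩
    intro w hw1 hw2
    exact h.2.2.1 w (sp_mono hC haC hu hw1) (sp_mono hC hbC hv hw2)
  · intro u hu v hv r hr hr'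
    exact ds_left hC h hu hv hr hr'
  · intro u hu v hv r hr hr'
    rw [add_comm] at hr'
    exact ds_left hC (ds_symm h) hv hu hr hr'
  · intro x hx hxab
    obtain ⟨u, hu, v, hv, e⟩ := h.2.2.2 x hxab
    obtain ⟨⟨c, hc, e1⟩, -⟩ := ex_add hC hx (mem_C hu) (mem_C hv) e.symm
    rcases hc.eq_or_lt with h0 | h0
    · right
      rw [← h0, zero_smul] at e1
      rw [e, e1, zero_add]
      exact hv
    · left
      rw [e1] at hu
      exact smul_mem hC haC h0 hu

end Pool.Agent.H21.KW
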