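import Pool.Agent.H61.KW.TA

namespace Pool.Agent.H21.KW

open Set Pool.Agent.H61.KV Pool.Agent.H61.KW

theorem pf_FIG : T_FIG := by
  intro V _ _ _ C q g s s' r hC hqf hg hfoot hs hs' hr hrr w h1 h2
  have hq := hqf.1
  have hsC := mem_C hs
  have hs'C := mem_C hs'
  have hwC := mem_C h1
  have hgs : g + s ∈ C := hC.add g hg s hsC
  have hgs' : g + s' ∈ C := hC.add g hg s' hs'C
  have hgr : g + r ∈ C := hC.add g hg r hr
  obtain ⟨h, hh⟩ := hqf.2 w hwC
  have hwh := foot_dec hC hq hwC hh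
  have hhC := foot_memC hC hq hh
  have e0 : h + (w - h) = w := by abel
  obtain ⟨a1, a2⟩ := face hC hgs hhC (mem_C hwh) (e0.symm ▸ h1)
  obtain ⟨b1, b2⟩ := face hC hgs' hhC (mem_C hwh) (e0.symm ▸ h2)
  have c1 := foot_face hC hq hg hs hfoot hwh a2
  have c2 := foot_face hC hq hg hs' hfoot hwh b2
  have c3 : w - h ∈ Fc C r := (hrr _).2 ⟨c1, c2⟩
  have c4 : w - h ∈ Fc C (g + r) := tra hC hgr (right_fc hC hg hr) c3
  -- the foot `h`
  obtain ⟨-, c, hc, hcs⟩ := a1
  obtain ⟨-, c', hc', hcs'⟩ := b1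
  have hN : 0 < c + c' + 1 := by linarith
  set N := c + c' + 1 with hNdef
  have d1 : N • (g + s) - h ∈ C := by
    have e : N • (g + s) - h = (c • (g + s) - h) + (c' + 1) • (g + s) := by
      rw [hNdef]; module
    rw [e]
    exact hC.add _ hcs _ (hC.smul _ (by linarith) _ hgs)
  have d2 : N • (g + s') - h ∈ C := by
    have e : N • (g + s') - h = (c' • (g + s') - h) + (c + 1) • (g + s') := by
      rw [hNdef]; module
    rw [e]
    exact hC.add _ hcs' _ (hC.smul _ (by linarith) _ hgs')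
  obtain ⟨k, hk⟩ := hqf.2 _ d1
  have hkC := foot_memC hC hq hk
  have f1 := foot_dec hC hq d1 hk
  have hshift : N • (s' - s) ∈ Sp C q :=
    Submodule.smul_mem _ _ (Submodule.sub_mem _ (mem_sp hs') (mem_sp hs))
  have hk' := foot_shift hk hshift
  have e1 : N • (g + s) - h + N • (s' - s) = N • (g + s') - h := by module
  rw [e1] at hk'
  have f2 := foot_dec hC hq d2 hk'
  have hNg := foot_smul hC hq hN hfoot
  have hhk : h + k ∈ C := hC.add _ hhC _ hkC
  have t1 : h + k - N • g ∈ Sp C q := by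
    have e : h + k - N • g = N • s - (N • (g + s) - h - k) := by module
    rw [e]
    exact Submodule.sub_mem _ (Submodule.smul_mem _ _ (mem_sp hs)) (mem_sp f1)
  have t2 : h + k - N • g ∈ Fc C q := foot_mem hNg hhk t1
  have t3 : h + k - N • g ∈ Fc C s := by
    refine (face hC hsC (mem_C t2) (mem_C f1) ?_).1
    have e : h + k - N • g + (N • (g + s) - h - k) = N • s := by module
    rw [e]
    exact smul_fc hC hsC hN.le (self hC hsC)
  have t4 : h + k - N • g ∈ Fc C s' := by
    refine (face hC hs'C (mem_C t2) (mem_C f2) ?_).1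
    have e : h + k - N • g + (N • (g + s') - h - k) = N • s' := by module
    rw [e]
    exact smul_fc hC hs'C hN.le (self hC hs'C)
  have t5 : h + k - N • g ∈ Fc C r := (hrr _).2 ⟨t3, t4⟩
  have t6 : h + k - N • g ∈ Fc C (g + r) := tra hC hgr (right_fc hC hg hr) t5
  have t7 : h + k ∈ Fc C (g + r) := by
    have e : h + k = N • g + (h + k - N • g) := by module
    rw [e]
    exact add_fc hC hgr (smul_fc hC hgr hN.le (left_fc hC hg hr)) t6
  have t8 := (face hC hgr hhC hkC t7).1
  rw [← e0]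
  exact add_fc hC hgr t8 c4

end Pool.Agent.H21.KW
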