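import Pool.Agent.H21.KW.DSB

namespace Pool.Agent.H21.KW

open Set Pool.Agent.H61.KV Pool.Agent.H61.KW

theorem pf_SHS (hG : T_GNX) : T_SHS := by
  intro V _ _ _ C q b W hC hq hrk hb hbq hW hx
  have hbC := hb.1
  have hbW : b ∉ W := by
    intro hbW
    have h1 : Sp C q ≤ W := by
      refine Submodule.span_le.2 ?_
      intro r hr
      obtain ⟨n, x, hxx, e⟩ := hG V C r hC (mem_C hr)
      rw [e]
      refine Submodule.sum_mem _ fun i _ => ?_
      rcases hx (x i) (hxx i).1 (tra hC hq hr (hxx i).2) with h2 | h2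
      · obtain ⟨c, -, e2⟩ := ex_mem hC hb h2
        rw [e2]
        exact Submodule.smul_mem _ _ hbW
      · exact h2
    have h2 : Module.finrank ℝ (Sp C q) ≤ Module.finrank ℝ W := Submodule.finrank_mono h1
    unfold rk at hrk
    omega
  obtain ⟨ξ, hξb, hξW⟩ : ∃ ξ : V →ₗ[ℝ] ℝ, ξ b = 1 ∧ ∀ w ∈ W, ξ w = 0 := by
    obtain ⟨f, hf, hf'⟩ := Submodule.exists_le_ker_of_notMem hbW
    refine ⟨(f b)⁻¹ • f, ?_, fun w hw => ?_⟩
    · rw [LinearMap.smul_apply, smul_eq_mul, inv_mul_cancel₀ hf]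
    · rw [LinearMap.smul_apply, LinearMap.mem_ker.1 (hf' hw), smul_zero]
  have hdec : ∀ r ∈ Fc C q, ∃ u ∈ Fc C q, ∃ c : ℝ, 0 ≤ c ∧ ξ u = 0 ∧ r = u + c • b := by
    intro r hr
    obtain ⟨n, x, hxx, e⟩ := hG V C r hC (mem_C hr)
    have h1 : ∀ i, ∃ u ∈ Fc C q, ∃ c : ℝ, 0 ≤ c ∧ ξ u = 0 ∧ x i = u + c • b := by
      intro i
      have hxq : x i ∈ Fc C q := tra hC hq hr (hxx i).2
      rcases hx (x i) (hxx i).1 hxq with h2 | h2
      · obtain ⟨c, hc, e2⟩ := ex_mem hC hb h2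
        exact ⟨0, zero_fc hC hq, c, hc, map_zero ξ, by rw [e2, zero_add]⟩
      · exact ⟨x i, hxq, 0, le_refl 0, hξW _ h2, by rw [zero_smul, add_zero]⟩
    choose u hu c hc hξu hxu using h1
    have hsum : ∀ s : Finset (Fin n), ∑ i ∈ s, u i ∈ Fc C q := by
      intro s
      induction s using Finset.cons_induction with
      | empty => simpa using zero_fc hC hq
      | cons i s hi ih =>
        rw [Finset.sum_cons]
        exact add_fc hC hq (hu i) ih
    refine ⟨∑ i, u i, hsum _, ∑ i, c i, Finset.sum_nonneg fun i _ => hc i, ?_, ?_⟩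
    · rw [map_sum]
      exact Finset.sum_eq_zero fun i _ => hξu i
    · rw [e, Finset.sum_smul, ← Finset.sum_add_distrib]
      exact Finset.sum_congr rfl fun i _ => hxu i
  have hnn : ∀ r ∈ Fc C q, 0 ≤ ξ r := by
    intro r hr
    obtain ⟨u, -, c, hc, h1, e⟩ := hdec r hr
    rw [e, map_add, map_smul, h1, hξb, zero_add, smul_eq_mul, mul_one]
    exact hc
  -- a face of maximal rank in the kernel
  obtain ⟨a, haq, hξa, hmax⟩ : ∃ a ∈ Fc C q, ξ a = 0 ∧
      ∀ a' ∈ Fc C q, ξ a' = 0 → rk C a' ≤ rk C a := by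
    let S : Set ℕ := {k | ∃ a ∈ Fc C q, ξ a = 0 ∧ rk C a = k}
    have hne : S.Nonempty := ⟨rk C (0 : V), 0, zero_fc hC hq, map_zero ξ, rfl⟩
    have hbd : BddAbove S := by
      refine ⟨4, ?_⟩
      rintro k ⟨a, ha, -, rfl⟩
      rw [← hrk]
      exact rk_mono hC hq ha
    obtain ⟨a, ha, ha0, hak⟩ := Nat.sSup_mem hne hbd
    refine ⟨a, ha, ha0, fun a' ha' ha0' => ?_⟩
    rw [hak]
    exact le_csSup hbd ⟨a', ha', ha0', rfl⟩
  have haC := mem_C haq
  have hin : ∀ r ∈ Fc C q, ξ r = 0 → r ∈ Fc C a := by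
    intro r hr hr0
    have harq : a + r ∈ Fc C q := add_fc hC hq haq hr
    have h1 : rk C (a + r) ≤ rk C a := hmax _ harq (by rw [map_add, hξa, hr0, add_zero])
    have h2 : a + r ∈ Fc C a := of_rk hC (mem_C harq) (left_fc hC haC (mem_C hr)) h1
    exact (face hC haC haC (mem_C hr) h2).2
  have hout : ∀ r ∈ Fc C a, ξ r = 0 := by
    intro r hr
    have hrq : r ∈ Fc C q := tra hC hq haq hr
    obtain ⟨hrC, N, hN, hN'⟩ := hr
    have h1 : N • a - r ∈ Fc C q := by
      have e : r + (N • a - r) = N • a := by abel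
      refine (face hC hq hrC hN' ?_).2
      rw [e]
      exact smul_fc hC hq hN haq
    have h2 := hnn r hrq
    have h3 := hnn _ h1
    rw [map_sub, map_smul, hξa, smul_zero, zero_sub] at h3
    linarith
  have hspa : ∀ v ∈ Sp C a, ξ v = 0 := by
    have h1 : Sp C a ≤ LinearMap.ker ξ :=
      Submodule.span_le.2 fun r hr => LinearMap.mem_ker.2 (hout r hr)
    exact fun v hv => LinearMap.mem_ker.1 (h1 hv)
  have hspb : ∀ v ∈ Sp C b, ∃ c : ℝ, v = c • b := by
    have h1 : Sp C b ≤ Submodule.span ℝ {b} := by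
      refine Submodule.span_le.2 ?_
      intro r hr
      obtain ⟨c, rfl⟩ := hb.2.2 r hr
      exact Submodule.smul_mem _ _ (Submodule.mem_span_singleton_self b)
    intro v hv
    obtain ⟨c, hc⟩ := Submodule.mem_span_singleton.1 (h1 hv)
    exact ⟨c, hc.symm⟩
  have habq : a + b ∈ Fc C q := add_fc hC hq haq hbq
  have hds : Dsum C a b := by
    refine ⟨haC, hbC, ?_, ?_⟩
    · intro v hv1 hv2
      obtain ⟨c, rfl⟩ := hspb v hv2
      have h1 := hspa _ hv1
      rw [map_smul, hξb, smul_eq_mul, mul_one] at h1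
      rw [h1, zero_smul]
    · intro r hr
      obtain ⟨u, hu, c, hc, hu0, e⟩ := hdec r (tra hC hq habq hr)
      exact ⟨u, hin u hu hu0, c • b, smul_fc hC hbC hc (self hC hbC), e⟩
  have hqab : q ∈ Fc C (a + b) := by
    have habC := mem_C habq
    obtain ⟨u, hu, c, hc, hu0, e⟩ := hdec q (self hC hq)
    have h1 : u + c • b ∈ Fc C (a + b) :=
      add_fc hC habC (tra hC habC (left_fc hC haC hbC) (hin u hu hu0))
        (smul_fc hC habC hc (right_fc hC haC hbC))
    rwa [← e] at h1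
  refine ⟨a, ?_, hb, hds, habq, hqab⟩
  have h1 := (pf_DSB V C a b hC hds).1
  rw [ex_rk hC hb, rk_congr hC hq habq hqab, hrk] at h1
  omega

end Pool.Agent.H21.KW
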